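import Pool.Agent.Helper741.Matsumoto
import Pool.Agent.Helper376.LC.Cox
import Pool.Agent.L7h78.RS.Inj
import Pool.Agent.N77.CX.Main

/-!
# Two left descents in Coxeter groups of arbitrary rank
-/

set_option autoImplicit false

namespace Pool.Agent.L7h78.PC

open Pool.Agent.Helper741 (alt alt_succ alt_zero alt_comm_of_pow)
open Pool.Agent.Helper376.LC
open Pool.Agent.L7h78.RS

variable {S : Type} {M : CoxeterMatrix S}

/-- the Coxeter system -/
noncomputable abbrev rcs (M : CoxeterMatrix S) : CoxeterSystem M M.Group := M.toCoxeterSystem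

theorem wp_eq (ω : List S) : (rcs M).wordProd ω = pr (rcs M).simple ω := by
  induction ω with
  | nil => simp
  | cons s ω ih => rw [CoxeterSystem.wordProd_cons, ih, pr_cons]

theorem wp_alw (s t : S) (k : ℕ) :
    (rcs M).wordProd (alw s t k) = alt ((rcs M).simple s) ((rcs M).simple t) k := by
  rw [wp_eq, pr_alw]

/-- orders in rank two -/
theorem order_ge {s t : S} (hst : s ≠ t) {k : ℕ} (hk : 0 < k)
    (h : ((rcs M).simple s * (rcs M).simple t) ^ k = 1) : M s t ≠ 0 ∧ M s t ≤ k := by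
  classical
  by_contra h0
  obtain ⟨J, hJ⟩ : ∃ J : Set S, J = {s, t} := ⟨_, rfl⟩
  have : Finite J := by rw [hJ]; exact ((Set.finite_singleton t).insert s)
  have := Fintype.ofFinite J
  obtain ⟨i, hi⟩ : ∃ i : J, i.1 = s := ⟨⟨s, by rw [hJ]; simp⟩, rfl⟩
  obtain ⟨j, hj⟩ : ∃ j : J, j.1 = t := ⟨⟨t, by rw [hJ]; simp⟩, rfl⟩
  have hij : i ≠ j := by
    rintro rfl
    exact hst (hi.symm.trans hj)
  obtain ⟨c, hc⟩ : ∃ c, c = (Pool.Agent.N77.CX.rest M J).toCoxeterSystem := ⟨_, rfl⟩
  have hinj := Pool.Agent.N77.CX.cmap_injective c (rcs M) Subtype.val (fun _ _ => rfl)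
    Subtype.val_injective
  have h1 : (c.simple i * c.simple j) ^ k = 1 := by
    apply hinj
    rw [map_pow, map_mul, Pool.Agent.N77.CX.cmap_simple, Pool.Agent.N77.CX.cmap_simple, map_one,
      hi, hj]
    exact h
  have hM : (Pool.Agent.N77.CX.rest M J) i j = M s t := by
    show M i.1 j.1 = M s t
    rw [hi, hj]
  have h2 := Pool.Agent.Helper741.isReduced_aw c hij (k := k + 1) (by rw [hM]; omega)
  have h3 : alt (c.simple i) (c.simple j) k = alt (c.simple j) (c.simple i) k :=
    alt_comm_of_pow (c.simple_mul_simple_self i) (c.simple_mul_simple_self j) h1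
  obtain ⟨k, rfl⟩ : ∃ m, k = m + 1 := ⟨k - 1, by omega⟩
  have h4 : c.wordProd (Pool.Agent.Helper741.aw i j (k + 1 + 1)) =
      c.wordProd (Pool.Agent.Helper741.aw j i k) := by
    rw [Pool.Agent.Helper741.wordProd_aw, Pool.Agent.Helper741.wordProd_aw, alt_succ, ← h3,
      alt_succ, c.simple_mul_simple_cancel_left]
  have h5 := h2.eq
  rw [h4, Pool.Agent.Helper741.aw_length] at h5
  have h6 := c.length_wordProd_le (Pool.Agent.Helper741.aw j i k)
  rw [Pool.Agent.Helper741.aw_length] at h6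
  omega

theorem order_eq {s t : S} (hst : s ≠ t)
    (h : 0 < orderOf ((rcs M).simple s * (rcs M).simple t)) :
    orderOf ((rcs M).simple s * (rcs M).simple t) = M s t := by
  obtain ⟨h1, h2⟩ := order_ge hst h (pow_orderOf_eq_one _)
  exact le_antisymm (orderOf_le_of_pow_eq_one (Nat.pos_of_ne_zero h1)
    ((rcs M).simple_mul_simple_pow s t)) h2

/-- the left inversions form a cocycle -/
theorem coc : Coc (rcs M).simple (fun w => Ninv (rcs M) w) where
  mul a b r := by
    rw [mem_Ninv_mul']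
    tauto
  gen b r := by
    have h1 := mem_Ninv_mul_simple' (rcs M) 1 r b
    rw [one_mul, Ninv_one'] at h1
    rw [h1]
    simp
  sq b := (rcs M).simple_mul_simple_self b
  inj := Pool.Agent.R676.Cox.simple_injective (rcs M)

/-- two left descents -/
theorem front (w : M.Group) {s t : S} (hst : s ≠ t) (hs : (rcs M).IsLeftDescent w s)
    (ht : (rcs M).IsLeftDescent w t) : M s t ≠ 0 ∧ ∃ υ : List S,
      (rcs M).IsReduced (alw s t (M s t) ++ υ) ∧ (rcs M).wordProd (alw s t (M s t) ++ υ) = w := by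
  obtain ⟨γ, hγ⟩ := (rcs M).wordProd_surjective w
  rw [wp_eq] at hγ
  subst hγ
  obtain ⟨υ, h1, h2, h3⟩ := coc.step hst γ ((simple_mem_Ninv' (rcs M) _ _).2 hs)
    ((simple_mem_Ninv' (rcs M) _ _).2 ht)
  have ho := order_eq hst h1
  rw [ho] at h1 h2 h3
  have h4 : (rcs M).wordProd (alw s t (M s t) ++ υ) = pr (rcs M).simple γ := by
    rw [wp_eq, pr_append, pr_alw, h2]
  refine ⟨by omega, υ, ?_, h4⟩
  obtain ⟨F, hF, hF'⟩ := Ninv_eq (rcs M) (pr (rcs M).simple γ)
  unfold CoxeterSystem.IsReduced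
  rw [h4, List.length_append, alw_length, h3]
  show _ = (Ninv (rcs M) (pr (rcs M).simple γ)).ncard
  rw [hF, Set.ncard_coe_finset, hF']

end Pool.Agent.L7h78.PC
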