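import Pool.Agent.L7h78.PC.Cox

/-!
# Graphs with edges labelled by the generators of a Coxeter group
-/

set_option autoImplicit false

namespace Pool.Agent.L7h78.PC

open Pool.Agent.Helper741 (alt alt_comm_of_pow)
open Pool.Agent.L7h78.RS (alw alw_succ alw_length)

variable {V S : Type}

/-- `Tr X lab x l y`: the walk in the graph `X` which starts at `x` and crosses edges with the labels
in the list `l` leads to `y` -/
def Tr (X : SimpleGraph V) (lab : V → V → S) : V → List S → V → Prop
  | x, [], y => x = y
  | x, s :: l, y => ∃ z, X.Adj x z ∧ lab x z = s ∧ Tr X lab z l y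

/-- Homotopies of walks which start at a vertex `x`, given by their lists of labels: backtracking
along an edge, and going around a polygon with `2 M s t` edges with the labels `s`, `t`, alternating,
on the other side; `alw s t k` is the alternating list of length `k` which starts with `s`. -/
inductive Homot (X : SimpleGraph V) (M : CoxeterMatrix S) (lab : V → V → S) :
    V → List S → List S → Prop
  | refl (x : V) (l : List S) : Homot X M lab x l l
  | symm {x : V} {l l' : List S} : Homot X M lab x l l' → Homot X M lab x l' l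
  | trans {x : V} {l l' l'' : List S} : Homot X M lab x l l' → Homot X M lab x l' l'' →
      Homot X M lab x l l''
  | back {x y : V} (h : X.Adj x y) (l : List S) : Homot X M lab x (lab x y :: lab x y :: l) l
  | polygon {x w : V} {s t : S} (hst : s ≠ t) (hM : M s t ≠ 0) (h₁ : Tr X lab x (alw s t (M s t)) w)
      (h₂ : Tr X lab x (alw t s (M s t)) w) (l : List S) :
      Homot X M lab x (alw s t (M s t) ++ l) (alw t s (M s t) ++ l)
  | cons {x y : V} (h : X.Adj x y) {l l' : List S} : Homot X M lab y l l' →
      Homot X M lab x (lab x y :: l) (lab x y :: l')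

/-- A simply connected polygonal complex whose edges are labelled by the generators of the Coxeter
group with the matrix `M`: edges with a common vertex and the same label are equal; edges with a
common vertex and labels `s`, `t` with `M s t` finite (not `0`) span a polygon with `2 M s t` edges;
and any two walks with the same end points are homotopic. -/
structure Special (X : SimpleGraph V) (M : CoxeterMatrix S) (lab : V → V → S) : Prop where
  conn : X.Connected
  symm : ∀ x y, X.Adj x y → lab x y = lab y x
  inj : ∀ x y z, X.Adj x y → X.Adj x z → lab x y = lab x z → y = z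
  polygon : ∀ x y z, X.Adj x y → X.Adj x z → lab x y ≠ lab x z → M (lab x y) (lab x z) ≠ 0 →
    ∃ w, Tr X lab x (alw (lab x y) (lab x z) (M (lab x y) (lab x z))) w ∧
      Tr X lab x (alw (lab x z) (lab x y) (M (lab x y) (lab x z))) w
  sc : ∀ (x y : V) (l l' : List S), Tr X lab x l y → Tr X lab x l' y → Homot X M lab x l l'

variable {X : SimpleGraph V} {M : CoxeterMatrix S} {lab : V → V → S}

theorem Tr.append {x y z : V} {l l' : List S} (h : Tr X lab x l y) (h' : Tr X lab y l' z) :
    Tr X lab x (l ++ l') z := by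
  induction l generalizing x with
  | nil => subst h; exact h'
  | cons s l ih =>
    obtain ⟨u, h1, h2, h3⟩ := h
    exact ⟨u, h1, h2, ih h3⟩

theorem Tr.split {x z : V} {l l' : List S} (h : Tr X lab x (l ++ l') z) :
    ∃ y, Tr X lab x l y ∧ Tr X lab y l' z := by
  induction l generalizing x with
  | nil => exact ⟨x, rfl, h⟩
  | cons s l ih =>
    obtain ⟨u, h1, h2, h3⟩ := h
    obtain ⟨y, h4, h5⟩ := ih h3
    exact ⟨y, ⟨u, h1, h2, h4⟩, h5⟩

theorem Tr.uniq (hX : Special X M lab) {x y z : V} {l : List S} (h : Tr X lab x l y)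
    (h' : Tr X lab x l z) : y = z := by
  induction l generalizing x with
  | nil => exact h.symm.trans h'
  | cons s l ih =>
    obtain ⟨u, h1, h2, h3⟩ := h
    obtain ⟨v, h4, h5, h6⟩ := h'
    have h7 : u = v := hX.inj x u v h1 h4 (h2.trans h5.symm)
    subst h7
    exact ih h3 h6

theorem Tr.dist (hX : Special X M lab) {x y : V} {l : List S} (h : Tr X lab x l y) :
    X.dist x y ≤ l.length := by
  induction l generalizing x with
  | nil =>
    have h1 : x = y := h
    subst h1
    simp
  | cons s l ih =>
    obtain ⟨u, h1, h2, h3⟩ := h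
    have h4 := hX.conn.dist_triangle (u := x) (v := u) (w := y)
    rw [SimpleGraph.dist_eq_one_iff_adj.2 h1] at h4
    have h5 := ih h3
    rw [List.length_cons]
    omega

theorem exists_tr (hX : Special X M lab) (x y : V) : ∃ l, Tr X lab x l y := by
  obtain ⟨p⟩ := hX.conn.preconnected x y
  induction p with
  | nil => exact ⟨[], rfl⟩
  | @cons u v w h p ih =>
    obtain ⟨l, hl⟩ := ih
    exact ⟨lab u v :: l, v, h, rfl, hl⟩

theorem wp_homot {x : V} {l l' : List S} (h : Homot X M lab x l l') :
    (rcs M).wordProd l = (rcs M).wordProd l' := by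
  induction h with
  | refl x l => rfl
  | symm _ ih => exact ih.symm
  | trans _ _ h1 h2 => exact h1.trans h2
  | back h l =>
    rw [CoxeterSystem.wordProd_cons, CoxeterSystem.wordProd_cons,
      CoxeterSystem.simple_mul_simple_cancel_left]
  | @polygon x w s t hst hM h₁ h₂ l =>
    rw [CoxeterSystem.wordProd_append, CoxeterSystem.wordProd_append, wp_alw, wp_alw,
      alt_comm_of_pow ((rcs M).simple_mul_simple_self _) ((rcs M).simple_mul_simple_self _)
        ((rcs M).simple_mul_simple_pow _ _)]
  | cons h _ ih => rw [CoxeterSystem.wordProd_cons, CoxeterSystem.wordProd_cons, ih]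

/-- the element of the Coxeter group of a pair of vertices -/
noncomputable def LL (hX : Special X M lab) (x y : V) : M.Group :=
  (rcs M).wordProd (exists_tr hX x y).choose

theorem LL_eq (hX : Special X M lab) {x y : V} {l : List S} (h : Tr X lab x l y) :
    LL hX x y = (rcs M).wordProd l :=
  wp_homot (hX.sc x y _ l (exists_tr hX x y).choose_spec h)

theorem LL_trans (hX : Special X M lab) (x y z : V) : LL hX x z = LL hX x y * LL hX y z := by
  obtain ⟨p, hp⟩ := exists_tr hX x y
  obtain ⟨q, hq⟩ := exists_tr hX y z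
  rw [LL_eq hX hp, LL_eq hX hq, LL_eq hX (hp.append hq), CoxeterSystem.wordProd_append]

theorem LL_adj (hX : Special X M lab) {x y : V} (h : X.Adj x y) :
    LL hX x y = (rcs M).simple (lab x y) := by
  rw [LL_eq hX (show Tr X lab x [lab x y] y from ⟨y, h, rfl, rfl⟩),
    CoxeterSystem.wordProd_singleton]

theorem LL_self (hX : Special X M lab) (x : V) : LL hX x x = 1 := by
  rw [LL_eq hX (show Tr X lab x [] x from rfl), CoxeterSystem.wordProd_nil]

/-- a first step of a shortest walk -/
theorem first_step (hX : Special X M lab) {x y : V} {n : ℕ} (h : X.dist x y = n + 1) :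
    ∃ z, X.Adj x z ∧ X.dist z y = n := by
  obtain ⟨p, hp⟩ := hX.conn.exists_walk_length_eq_dist x y
  cases p with
  | nil => rw [h] at hp; simp at hp
  | @cons _ z _ hz p =>
    refine ⟨z, hz, ?_⟩
    rw [SimpleGraph.Walk.length_cons, h] at hp
    have h1 := SimpleGraph.dist_le p
    have h2 := hX.conn.dist_triangle (u := x) (v := z) (w := y)
    rw [SimpleGraph.dist_eq_one_iff_adj.2 hz, h] at h2
    omega

/-- the induction statement -/
def PP (hX : Special X M lab) (n : ℕ) : Prop := ∀ x y : V, X.dist x y = n →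
    (rcs M).length (LL hX x y) = n ∧ ∀ s : S, (rcs M).IsLeftDescent (LL hX x y) s →
      ∃ z, X.Adj x z ∧ lab x z = s ∧ X.dist z y + 1 = n

/-- following an alternating word at the beginning of a reduced word -/
theorem follow (hX : Special X M lab) (n : ℕ) (hP : ∀ j ≤ n, PP hX j) (y : V) (k : ℕ) :
    ∀ (v : V) (a b : S) (u : List S), X.dist v y ≤ n → (rcs M).IsReduced (alw a b k ++ u) →
      LL hX v y = (rcs M).wordProd (alw a b k ++ u) →
      ∃ v', Tr X lab v (alw a b k) v' ∧ X.dist v' y + k = X.dist v y := by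
  induction k with
  | zero => exact fun v a b u _ _ _ => ⟨v, rfl, rfl⟩
  | succ k ih =>
    intro v a b u hd hr hL
    rw [alw_succ, List.cons_append] at hr hL
    have hr' : (rcs M).IsReduced (alw b a k ++ u) := by simpa using hr.drop 1
    have h1 : (rcs M).IsLeftDescent (LL hX v y) a := by
      unfold CoxeterSystem.IsLeftDescent
      rw [hL, hr.eq, CoxeterSystem.wordProd_cons, CoxeterSystem.simple_mul_simple_cancel_left,
        hr'.eq, List.length_cons]
      omega
    obtain ⟨z, hz, hz1, hz2⟩ := (hP _ hd v y rfl).2 a h1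
    have h2 : LL hX z y = (rcs M).wordProd (alw b a k ++ u) := by
      have h3 : LL hX v y = (rcs M).simple a * LL hX z y := by
        rw [LL_trans hX v z y, LL_adj hX hz, hz1]
      rw [hL, CoxeterSystem.wordProd_cons] at h3
      exact (mul_left_cancel h3).symm
    obtain ⟨v', h4, h5⟩ := ih z b a u (by omega) hr' h2
    exact ⟨v', ⟨z, hz, hz1, h4⟩, by omega⟩

theorem key (hX : Special X M lab) (n : ℕ) : PP hX n := by
  induction n using Nat.strong_induction_on with
  | _ n ih =>
  rcases Nat.eq_zero_or_pos n with rfl | hn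
  · intro x y h
    rw [hX.conn.dist_eq_zero_iff] at h
    subst h
    rw [LL_self, CoxeterSystem.length_one]
    refine ⟨rfl, fun s hs => ?_⟩
    unfold CoxeterSystem.IsLeftDescent at hs
    rw [CoxeterSystem.length_one] at hs
    omega
  · obtain ⟨n, rfl⟩ : ∃ m, n = m + 1 := ⟨n - 1, by omega⟩
    intro x y h
    obtain ⟨x₁, hx₁, hd⟩ := first_step hX h
    obtain ⟨h1, h2⟩ := ih n (by omega) x₁ y hd
    obtain ⟨s₁, hs₁⟩ : ∃ s₁, lab x x₁ = s₁ := ⟨_, rfl⟩
    have hs₁' : lab x₁ x = s₁ := by rw [← hX.symm x x₁ hx₁, hs₁]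
    have h3 : LL hX x y = (rcs M).simple s₁ * LL hX x₁ y := by
      rw [LL_trans hX x x₁ y, LL_adj hX hx₁, hs₁]
    have h4 : LL hX x₁ y = (rcs M).simple s₁ * LL hX x y := by
      rw [h3, (rcs M).simple_mul_simple_cancel_left]
    have hlen : (rcs M).length (LL hX x y) = n + 1 := by
      rcases (rcs M).length_simple_mul (LL hX x₁ y) s₁ with h5 | h5
      · rw [h3, h5, h1]
      · exfalso
        obtain ⟨z, hz, hz1, hz2⟩ := h2 s₁ (by
          unfold CoxeterSystem.IsLeftDescent
          omega)
        have h6 : z = x := hX.inj x₁ z x hz hx₁.symm (hz1.trans hs₁'.symm)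
        rw [h6, h] at hz2
        omega
    refine ⟨hlen, fun s hs => ?_⟩
    by_cases hss : s = s₁
    · exact ⟨x₁, hx₁, by rw [hs₁, hss], by omega⟩
    · have hd1 : (rcs M).length ((rcs M).simple s₁ * LL hX x y) < (rcs M).length (LL hX x y) := by
        rw [← h4, h1, hlen]
        omega
      obtain ⟨h0, u, hu1, hu2⟩ := front (LL hX x y) (Ne.symm hss) hd1 hs
      have h1' : M s₁ s ≠ 1 := M.off_diagonal s₁ s (Ne.symm hss)
      obtain ⟨m, hm⟩ : ∃ m, M s₁ s = m + 2 := ⟨M s₁ s - 2, by omega⟩
      rw [hm, alw_succ, List.cons_append] at hu1 hu2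
      have hr' : (rcs M).IsReduced (alw s s₁ (m + 1) ++ u) := by simpa using hu1.drop 1
      have h5 : LL hX x₁ y = (rcs M).wordProd (alw s s₁ (m + 1) ++ u) := by
        rw [h4, ← hu2, CoxeterSystem.wordProd_cons, CoxeterSystem.simple_mul_simple_cancel_left]
      obtain ⟨a, ha1, ha2⟩ := follow hX n (fun j hj => ih j (by omega)) y (m + 1) x₁ s s₁ u
        (by omega) hr' h5
      obtain ⟨z₁, hz₁, hz₁s, hz₁a⟩ := ha1
      obtain ⟨w, hw1, hw2⟩ := hX.polygon x₁ x z₁ hx₁.symm hz₁ (by rw [hs₁', hz₁s]; exact Ne.symm hss)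
        (by rw [hs₁', hz₁s]; exact h0)
      rw [hs₁', hz₁s, hm] at hw1 hw2
      -- the second half of the polygon
      obtain ⟨υ, hυ⟩ : ∃ υ, alw s s₁ (m + 2) = alw s s₁ (m + 1) ++ υ ∧ υ.length = 1 := by
        have h6 : ∀ (k : ℕ) (c d : S), ∃ υ, alw c d (k + 1) = alw c d k ++ υ ∧ υ.length = 1 := by
          intro k
          induction k with
          | zero => exact fun c d => ⟨[c], rfl, rfl⟩
          | succ k ih2 =>
            intro c d
            obtain ⟨υ, h7, h8⟩ := ih2 d c
            exact ⟨υ, by rw [alw_succ, h7, alw_succ]; rfl, h8⟩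
        exact h6 (m + 1) s s₁
      rw [hυ.1] at hw2
      obtain ⟨a', ha', hw3⟩ := hw2.split
      have haa : a' = a := ha'.uniq hX ⟨z₁, hz₁, hz₁s, hz₁a⟩
      rw [haa] at hw3
      have hd3 := hw3.dist hX
      rw [hυ.2] at hd3
      rw [alw_succ] at hw1
      obtain ⟨x', hx', hx's, hx'w⟩ := hw1
      have hxx : x' = x := hX.inj x₁ x' x hx' hx₁.symm (hx's.trans hs₁'.symm)
      rw [hxx, alw_succ] at hx'w
      obtain ⟨z, hz, hzs, hzw⟩ := hx'w
      have hd4 := hzw.dist hX
      rw [alw_length] at hd4
      refine ⟨z, hz, hzs, ?_⟩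
      have h6 := hX.conn.dist_triangle (u := z) (v := w) (w := y)
      have h7 := hX.conn.dist_triangle (u := w) (v := a) (w := y)
      rw [SimpleGraph.dist_comm] at hd3
      have h8 := hX.conn.dist_triangle (u := x) (v := z) (w := y)
      rw [SimpleGraph.dist_eq_one_iff_adj.2 hz, h] at h8
      omega

theorem eq_of_LL (hX : Special X M lab) {x y : V} (h : LL hX x y = 1) : x = y := by
  have h1 := (key hX _ x y rfl).1
  rw [h, CoxeterSystem.length_one] at h1
  exact (hX.conn.dist_eq_zero_iff).1 h1.symm

end Pool.Agent.L7h78.PC
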